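import Mathlib

/-!
MP_6f70ff_gt (helper185): scale invariance of graphs.  Definitions.
-/

open Filter Topology

namespace Pool.Agent.Q185.ScaleInv

/-- `f` is a `C`-rough isometry between the vertex sets of two graphs with the graph distances. -/
def IsRoughIsometry {V W : Type*} (G : SimpleGraph V) (H : SimpleGraph W) (C : ℝ) (f : V → W) :
    Prop :=
  (∀ x y, C⁻¹ * H.dist (f x) (f y) - C ≤ G.dist x y ∧
    (G.dist x y : ℝ) ≤ C * H.dist (f x) (f y) + C) ∧
  ∀ y, ∃ x, (H.dist (f x) y : ℝ) < C

/-- `N` is a `k`-net: a maximal set of vertices whose mutual distances are at least `k`. -/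
def IsNet {V : Type*} (G : SimpleGraph V) (k : ℕ) (N : Set V) : Prop :=
  Maximal (fun N : Set V => ∀ u ∈ N, ∀ v ∈ N, u ≠ v → k ≤ G.dist u v) N

/-- The `k`-net graph on `N`. -/
def netGraph {V : Type*} (G : SimpleGraph V) (k : ℕ) (N : Set V) : SimpleGraph N where
  Adj u v := 0 < G.dist (u : V) v ∧ G.dist (u : V) v ≤ 2 * k
  symm := ⟨fun u v h => by rwa [G.dist_comm]⟩
  loopless := ⟨fun u h => by simp at h⟩

/-- `C_k`: the infimum of all `C > 0` for which there is a `C`-rough isometry from `G` to `H`. -/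
noncomputable def roughConst {V W : Type*} (G : SimpleGraph V) (H : SimpleGraph W) : EReal :=
  ⨅ (C : ℝ) (_ : 0 < C ∧ ∃ f : V → W, IsRoughIsometry G H C f), (C : EReal)

/-- `G` is sub scale invariant: `C_k → 1` for every choice of the `k`-net graphs. -/
def SubScaleInvariant {V : Type*} (G : SimpleGraph V) : Prop :=
  ∀ N : ℕ → Set V, (∀ k, 1 ≤ k → IsNet G k (N k)) →
    Tendsto (fun k => roughConst G (netGraph G k (N k))) atTop (𝓝 1)

/-- The automorphism group acts transitively on the vertices. -/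
def VertexTransitive {V : Type*} (G : SimpleGraph V) : Prop := ∀ u v : V, ∃ φ : G ≃g G, φ u = v

/-- The closed ball of radius `r` about `v`. -/
def ball {V : Type*} (G : SimpleGraph V) (v : V) (r : ℝ) : Set V := {w | (G.dist v w : ℝ) ≤ r}

/-- Volume doubling. -/
def VolumeDoubling {V : Type*} (G : SimpleGraph V) : Prop :=
  ∃ C : ℝ, 0 < C ∧ ∀ (v : V) (r : ℝ), 0 < r →
    ((ball G v (2 * r)).ncard : ℝ) ≤ C * (ball G v r).ncard

/-- The two-way infinite path. -/
def line : SimpleGraph ℤ where
  Adj i j := |i - j| = 1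
  symm := ⟨fun i j h => by rwa [abs_sub_comm]⟩
  loopless := ⟨fun i h => by simp at h⟩

end Pool.Agent.Q185.ScaleInv
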