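import Pool.Agent.Q185.ScaleInv.Vol

/-!
MP_6f70ff_gt (helper185): the two-way infinite path is sub scale invariant.
-/

open Filter Topology

namespace Pool.Agent.Q185.ScaleInv

theorem line_walk (i : ℤ) (n : ℕ) : ∃ w : line.Walk i (i + n), w.length = n := by
  induction n with
  | zero => exact ⟨SimpleGraph.Walk.nil.copy rfl (by simp), by simp⟩
  | succ n ih =>
    obtain ⟨w, hw⟩ := ih
    have hadj : line.Adj (i + n) (i + (n + 1 : ℕ)) := by
      show |i + n - (i + (n + 1 : ℕ))| = 1
      push_cast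
      have : i + (n : ℤ) - (i + (n + 1)) = -1 := by ring
      rw [this]; rfl
    refine ⟨w.concat hadj, ?_⟩
    rw [SimpleGraph.Walk.length_concat, hw]

theorem walk_lower {i j : ℤ} (w : line.Walk i j) : |i - j| ≤ w.length := by
  induction w with
  | nil => simp
  | cons h p ih =>
    rename_i a b c
    rw [SimpleGraph.Walk.length_cons]
    have h' : |a - b| = 1 := h
    have := abs_sub_le a b c
    push_cast
    linarith

theorem line_connected : line.Connected := by
  have key : ∀ (i : ℤ) (n : ℕ), line.Reachable i (i + n) := fun i n => by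
    obtain ⟨w, -⟩ := line_walk i n
    exact ⟨w⟩
  refine ⟨fun i j => ?_⟩
  rcases le_total i j with h | h
  · have := key i (j - i).toNat
    rwa [Int.toNat_of_nonneg (by omega), add_sub_cancel] at this
  · have := key j (i - j).toNat
    rw [Int.toNat_of_nonneg (by omega), add_sub_cancel] at this
    exact this.symm

theorem line_dist (i j : ℤ) : (line.dist i j : ℤ) = |i - j| := by
  have key : ∀ (i : ℤ) (n : ℕ), line.dist i (i + n) ≤ n := fun i n => by
    obtain ⟨w, hw⟩ := line_walk i n
    exact (SimpleGraph.dist_le w).trans hw.le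
  apply le_antisymm
  · rcases le_total i j with h | h
    · have := key i (j - i).toNat
      rw [Int.toNat_of_nonneg (by omega), add_sub_cancel] at this
      rw [abs_of_nonpos (by omega)]
      omega
    · have := key j (i - j).toNat
      rw [Int.toNat_of_nonneg (by omega), add_sub_cancel, SimpleGraph.dist_comm] at this
      rw [abs_of_nonneg (by omega)]
      omega
  · obtain ⟨w, hw⟩ := line_connected.exists_walk_length_eq_dist i j
    rw [← hw]
    exact walk_lower w

theorem line_transitive : VertexTransitive line := by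
  intro u v
  refine ⟨⟨Equiv.addRight (v - u), ?_⟩, by show u + (v - u) = v; ring⟩
  intro a b
  show |a + (v - u) - (b + (v - u))| = 1 ↔ |a - b| = 1
  rw [add_sub_add_right_eq_sub]

theorem line_finite (v : ℤ) : (line.neighborSet v).Finite := by
  refine (Set.finite_Icc (v - 1) (v + 1)).subset fun w hw => ?_
  have : |v - w| = 1 := hw
  rw [abs_eq (by norm_num)] at this
  constructor <;> rcases this with h | h <;> omega

/-- the properties of nets on the line -/
structure NetZ (k : ℕ) (N : Set ℤ) : Prop where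
  sep : ∀ u ∈ N, ∀ v ∈ N, u ≠ v → (k : ℤ) ≤ |u - v|
  cover : ∀ v, ∃ u ∈ N, |u - v| < k

theorem netZ {k : ℕ} (hk : 1 ≤ k) {N : Set ℤ} (hN : IsNet line k N) : NetZ k N := by
  refine ⟨fun u hu v hv h => ?_, fun v => ?_⟩
  · have := hN.1 u hu v hv h
    rw [← line_dist]
    exact_mod_cast this
  · obtain ⟨u, hu, h⟩ := net_cover line_connected hk hN v
    refine ⟨u, hu, ?_⟩
    rw [← line_dist]
    exact_mod_cast h

theorem NetZ.neg {k : ℕ} {N : Set ℤ} (h : NetZ k N) : NetZ k {x | -x ∈ N} := by
  refine ⟨fun u hu v hv huv => ?_, fun v => ?_⟩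
  · have := h.sep _ hu _ hv (fun h => huv (neg_injective h))
    rwa [neg_sub_neg, abs_sub_comm] at this
  · obtain ⟨u, hu, h1⟩ := h.cover (-v)
    refine ⟨-u, by simpa using hu, ?_⟩
    have : -u - v = -(u - -v) := by ring
    rw [this, abs_neg]
    exact h1

/-- the greedy step to the right -/
theorem NetZ.next {k : ℕ} {N : Set ℤ} (h : NetZ k N) (u : ℤ) :
    ∃ w ∈ N, u < w ∧ w ≤ u + 2 * k ∧ ∀ v ∈ N, v ≤ u + 2 * k → v ≤ w := by
  obtain ⟨w, hw, h1⟩ := h.cover (u + k)
  rw [abs_lt] at h1
  obtain ⟨z, hz, hmax⟩ := Set.exists_max_image (s := {v ∈ N | u < v ∧ v ≤ u + 2 * k}) id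
    ((Set.finite_Icc u (u + 2 * k)).subset fun v hv => ⟨hv.2.1.le, hv.2.2⟩)
    ⟨w, hw, by omega, by omega⟩
  refine ⟨z, hz.1, hz.2.1, hz.2.2, fun v hv hvu => ?_⟩
  by_cases h2 : u < v
  · exact hmax v ⟨hv, h2, hvu⟩
  · exact (not_lt.1 h2).trans hz.2.1.le

/-- the greedy sequence to the right -/
theorem NetZ.seq {k : ℕ} {N : Set ℤ} (h : NetZ k N) (b : ℤ) (hb : b ∈ N) :
    ∃ r : ℕ → ℤ, r 0 = b ∧ (∀ n, r n ∈ N) ∧ (∀ n, r n < r (n + 1)) ∧
      (∀ n, r (n + 1) ≤ r n + 2 * k) ∧ ∀ n, ∀ v ∈ N, v ≤ r n + 2 * k → v ≤ r (n + 1) := by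
  choose nxt h1 h2 h3 h4 using h.next
  refine ⟨fun n => Nat.rec b (fun _ u => nxt u) n, rfl, fun n => ?_, fun n => h2 _, fun n => h3 _,
    fun n => h4 _⟩
  cases n with
  | zero => exact hb
  | succ n => exact h1 _

/-- the level of a point with respect to a greedy sequence -/
theorem exists_level {k : ℕ} {N : Set ℤ} {r : ℕ → ℤ} (h2 : ∀ n, r n < r (n + 1))
    (h4 : ∀ n, ∀ v ∈ N, v ≤ r n + 2 * k → v ≤ r (n + 1)) :
    ∃ ψ : ℤ → ℕ, (∀ v, v ≤ r (ψ v)) ∧ (∀ v n, v ≤ r n → ψ v ≤ n) ∧
      (∀ u ∈ N, ∀ v ∈ N, v ≤ u + 2 * k → ψ v ≤ ψ u + 1) ∧ ∀ n, ψ (r n) = n := by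
  have hm : StrictMono r := strictMono_nat_of_lt_succ h2
  have hgrow : ∀ n : ℕ, r 0 + n ≤ r n := by
    intro n
    induction n with
    | zero => simp
    | succ n ih =>
      have := h2 n
      push_cast
      omega
  have hex : ∀ v : ℤ, ∃ n : ℕ, v ≤ r n := fun v => by
    refine ⟨(v - r 0).toNat, ?_⟩
    have := hgrow (v - r 0).toNat
    omega
  classical
  refine ⟨fun v => Nat.find (hex v), fun v => Nat.find_spec (hex v), fun v n h => Nat.find_min' _ h,
    fun u hu v hv h => ?_, fun n => ?_⟩
  · refine Nat.find_min' _ (h4 _ v hv (h.trans ?_))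
    have := Nat.find_spec (hex u)
    linarith
  · apply le_antisymm
    · exact Nat.find_min' _ le_rfl
    · exact hm.le_iff_le.1 (Nat.find_spec (hex (r n)))

theorem line_sub_one {k : ℕ} (hk : 1 ≤ k) {N : Set ℤ} (hN : IsNet line k N) {C : ℝ} (hC : 1 < C) :
    ∃ b : ℤ → N, IsRoughIsometry line (netGraph line k N) C b := by
  have hZ := netZ hk hN
  have hconn := net_connected line_connected hk hN
  obtain ⟨b₀, hb₀, -⟩ := hZ.cover 0
  obtain ⟨r, r0, r1, r2, r3, r4⟩ := hZ.seq b₀ hb₀
  obtain ⟨l, l0, l1, l2, l3, l4⟩ := hZ.neg.seq (-b₀) (by simpa using hb₀)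
  obtain ⟨ψ, p1, p2, p3, p4⟩ := exists_level r2 r4
  obtain ⟨χ, q1, q2, q3, q4⟩ := exists_level l2 l4
  have hadj : ∀ u v : N, (u : ℤ) < v → (v : ℤ) ≤ u + 2 * k → (netGraph line k N).Adj u v := by
    intro u v h1 h2
    have h3 := line_dist (u : ℤ) v
    rw [abs_of_neg (by omega)] at h3
    exact ⟨by omega, by omega⟩
  have hadj' : ∀ u v : N, (netGraph line k N).Adj u v → |(u : ℤ) - v| ≤ 2 * k := by
    intro u v h
    rw [← line_dist]
    exact_mod_cast h.2
  -- the potential
  set Φ : N → ℤ := fun v => if b₀ < (v : ℤ) then (ψ v : ℤ) - 1 else -(χ (-(v : ℤ)) : ℤ) with hΦ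
  have hstep' : ∀ u v : N, (netGraph line k N).Adj u v → (u : ℤ) < v → |Φ u - Φ v| ≤ 1 := by
    intro u v h huv
    have h1 := hadj' u v h
    rw [abs_le] at h1
    by_cases hu : b₀ < (u : ℤ)
    · have hv : b₀ < (v : ℤ) := hu.trans huv
      simp only [hΦ, hu, hv, if_true]
      have h2 := p3 u u.2 v v.2 (by omega)
      have h3 : ψ u ≤ ψ v := p2 _ _ (huv.le.trans (p1 v))
      rw [abs_le]
      constructor <;> omega
    · by_cases hv : b₀ < (v : ℤ)
      · simp only [hΦ, hu, hv, if_true, if_false]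
        have h2 : ψ v ≤ 1 := p2 _ _ (r4 0 v v.2 (by rw [r0]; omega))
        have h3 : 1 ≤ ψ v := by
          by_contra h0
          have h4 : ψ v = 0 := by omega
          have h5 := p1 v
          rw [h4, r0] at h5
          omega
        have h4 : χ (-(u : ℤ)) ≤ 1 := q2 _ _ (l4 0 _ (by simp) (by rw [l0]; omega))
        rw [abs_le]
        constructor <;> omega
      · simp only [hΦ, hu, hv, if_false]
        have h2 := q3 (-(v : ℤ)) (by simp) (-(u : ℤ)) (by simp) (by omega)
        have h3 : χ (-(v : ℤ)) ≤ χ (-(u : ℤ)) := q2 _ _ (le_trans (by omega) (q1 (-(u : ℤ))))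
        rw [abs_le]
        constructor <;> omega
  have hstep : ∀ u v : N, (netGraph line k N).Adj u v → |Φ u - Φ v| ≤ 1 := by
    intro u v h
    rcases lt_trichotomy (u : ℤ) v with h1 | h1 | h1
    · exact hstep' u v h h1
    · have : u = v := Subtype.ext h1
      rw [this]; simp
    · rw [abs_sub_comm]
      exact hstep' v u h.symm h1
  have hwalk : ∀ (u v : N) (w : (netGraph line k N).Walk u v), |Φ u - Φ v| ≤ w.length := by
    intro u v w
    induction w with
    | nil => simp
    | cons h p ih =>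
      rename_i a b c
      rw [SimpleGraph.Walk.length_cons]
      have h1 := abs_sub_le (Φ a) (Φ b) (Φ c)
      have h2 := hstep a b h
      push_cast
      linarith
  have hlow : ∀ u v : N, |Φ u - Φ v| ≤ (netGraph line k N).dist u v := by
    intro u v
    obtain ⟨w, hw⟩ := hconn.exists_walk_length_eq_dist u v
    rw [← hw]
    exact hwalk u v w
  -- the bi-infinite sequence
  have hlN : ∀ n, -l n ∈ N := fun n => l1 n
  let b : ℤ → N := fun i => match i with
    | Int.ofNat n => ⟨r n, r1 n⟩
    | Int.negSucc n => ⟨-l (n + 1), hlN (n + 1)⟩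
  have hb1 : ∀ n : ℕ, b n = ⟨r n, r1 n⟩ := fun n => rfl
  have hb2 : ∀ n : ℕ, b (-n) = ⟨-l n, hlN n⟩ := by
    intro n
    cases n with
    | zero =>
      show b 0 = _
      refine Subtype.ext ?_
      show r 0 = -l 0
      rw [r0, l0, neg_neg]
    | succ n => rfl
  have hΦ1 : ∀ n : ℕ, Φ (b n) = if n = 0 then 0 else (n : ℤ) - 1 := by
    intro n
    rw [hb1]
    simp only [hΦ]
    cases n with
    | zero =>
      simp only [r0, lt_irrefl, if_false, if_true]
      have : χ (-b₀) = 0 := by rw [← l0, q4]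
      rw [this]; simp
    | succ n =>
      have : b₀ < r (n + 1) := by
        rw [← r0]; exact (strictMono_nat_of_lt_succ r2) (Nat.succ_pos n)
      rw [if_pos this, p4, if_neg (Nat.succ_ne_zero n)]
  have hΦ2 : ∀ n : ℕ, Φ (b (-n)) = -(n : ℤ) := by
    intro n
    rw [hb2]
    simp only [hΦ]
    have : ¬ b₀ < -l n := by
      have := (strictMono_nat_of_lt_succ l2).monotone (Nat.zero_le n)
      rw [l0] at this
      omega
    rw [if_neg this, neg_neg, q4]
  have hΦb : ∀ i : ℤ, Φ (b i) = if 0 < i then i - 1 else i := by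
    intro i
    rcases Int.le_total 0 i with h | h
    · obtain ⟨n, rfl⟩ := Int.eq_ofNat_of_zero_le h
      rw [hΦ1]
      cases n with
      | zero => simp
      | succ n => simp
    · obtain ⟨n, hn⟩ := Int.eq_ofNat_of_zero_le (show 0 ≤ -i by omega)
      have : i = -(n : ℤ) := by omega
      rw [this, hΦ2, if_neg (by omega)]
  have hsucc : ∀ i : ℤ, (netGraph line k N).Adj (b i) (b (i + 1)) := by
    intro i
    rcases lt_or_ge i 0 with h | h
    · obtain ⟨n, hn⟩ := Int.eq_ofNat_of_zero_le (show 0 ≤ -i - 1 by omega)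
      have e1 : i = -((n + 1 : ℕ) : ℤ) := by push_cast; omega
      have e2 : i + 1 = -(n : ℤ) := by omega
      rw [e2, e1, hb2, hb2]
      have h5 := l2 n
      have h6 := l3 n
      exact hadj _ _ (by show -l (n + 1) < -l n; omega) (by show -l n ≤ -l (n + 1) + 2 * k; omega)
    · obtain ⟨n, rfl⟩ := Int.eq_ofNat_of_zero_le h
      have e2 : (n : ℤ) + 1 = ((n + 1 : ℕ) : ℤ) := by push_cast; rfl
      rw [e2, hb1, hb1]
      exact hadj _ _ (r2 n) (r3 n)
  have hup' : ∀ (i : ℤ) (n : ℕ), (netGraph line k N).dist (b i) (b (i + n)) ≤ n := by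
    intro i n
    induction n with
    | zero => simp
    | succ n ih =>
      have h1 := hconn.dist_triangle (u := b i) (v := b (i + n)) (w := b (i + (n + 1 : ℕ)))
      have h2 : (netGraph line k N).dist (b (i + n)) (b (i + (n + 1 : ℕ))) = 1 := by
        rw [SimpleGraph.dist_eq_one_iff_adj]
        have := hsucc (i + n)
        rwa [add_assoc, ← Nat.cast_succ] at this
      omega
  have hup : ∀ i j : ℤ, ((netGraph line k N).dist (b i) (b j) : ℤ) ≤ |i - j| := by
    intro i j
    rcases le_total i j with h | h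
    · obtain ⟨n, hn⟩ := Int.eq_ofNat_of_zero_le (show 0 ≤ j - i by omega)
      have e : j = i + n := by omega
      rw [e, abs_of_nonpos (by omega)]
      have := hup' i n
      omega
    · obtain ⟨n, hn⟩ := Int.eq_ofNat_of_zero_le (show 0 ≤ i - j by omega)
      have e : i = j + n := by omega
      rw [e, abs_of_nonneg (by omega), SimpleGraph.dist_comm]
      have := hup' j n
      omega
  have hlo : ∀ i j : ℤ, |i - j| ≤ (netGraph line k N).dist (b i) (b j) + 1 := by
    intro i j
    have h1 := hlow (b i) (b j)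
    rw [hΦb, hΦb, abs_le] at h1
    rw [abs_le]
    constructor
    · split_ifs at h1 <;> omega
    · split_ifs at h1 <;> omega
  refine ⟨b, fun x y => ⟨?_, ?_⟩, fun v => ?_⟩
  · have h1 : ((netGraph line k N).dist (b x) (b y) : ℝ) ≤ line.dist x y := by
      have := hup x y
      rw [← line_dist] at this
      exact_mod_cast this
    have h2 : C⁻¹ * ((netGraph line k N).dist (b x) (b y) : ℝ) ≤
        1 * ((netGraph line k N).dist (b x) (b y) : ℝ) :=
      mul_le_mul_of_nonneg_right (inv_le_one_of_one_le₀ hC.le) (Nat.cast_nonneg _)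
    linarith
  · have h1 : (line.dist x y : ℝ) ≤ (netGraph line k N).dist (b x) (b y) + 1 := by
      have := hlo x y
      rw [← line_dist] at this
      exact_mod_cast this
    have h2 : 1 * ((netGraph line k N).dist (b x) (b y) : ℝ) ≤
        C * ((netGraph line k N).dist (b x) (b y) : ℝ) :=
      mul_le_mul_of_nonneg_right hC.le (Nat.cast_nonneg _)
    linarith
  · have h1 : ∃ x, (netGraph line k N).dist (b x) v ≤ 1 := by
      by_cases hv : b₀ < (v : ℤ)
      · have h3 : 1 ≤ ψ v := by
          by_contra h0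
          have h4 : ψ v = 0 := by omega
          have h5 := p1 v
          rw [h4, r0] at h5
          omega
        obtain ⟨n, hn⟩ := Nat.exists_eq_add_of_le' h3
        have h4 : r n < v := by
          by_contra h0
          have := p2 v n (not_lt.1 h0)
          omega
        have h5 := p1 v
        rw [hn] at h5
        have h6 := r3 n
        refine ⟨n, ?_⟩
        rw [hb1]
        exact (SimpleGraph.dist_eq_one_iff_adj.2 (hadj ⟨r n, r1 n⟩ v h4
          (by show (v : ℤ) ≤ r n + 2 * k; omega))).le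
      · by_cases hv2 : (v : ℤ) = b₀
        · refine ⟨(0 : ℕ), ?_⟩
          rw [hb1]
          have : (⟨r 0, r1 0⟩ : N) = v := Subtype.ext (show r 0 = (v : ℤ) by rw [r0]; exact hv2.symm)
          rw [this]; simp
        · have h3 : 1 ≤ χ (-(v : ℤ)) := by
            by_contra h0
            have h4 : χ (-(v : ℤ)) = 0 := by omega
            have h5 := q1 (-(v : ℤ))
            rw [h4, l0] at h5
            omega
          obtain ⟨n, hn⟩ := Nat.exists_eq_add_of_le' h3
          have h4 : l n < -(v : ℤ) := by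
            by_contra h0
            have := q2 (-(v : ℤ)) n (not_lt.1 h0)
            omega
          have h5 := q1 (-(v : ℤ))
          rw [hn] at h5
          have h6 := l3 n
          refine ⟨-(n : ℤ), ?_⟩
          rw [hb2, SimpleGraph.dist_comm]
          exact (SimpleGraph.dist_eq_one_iff_adj.2 (hadj v ⟨-l n, hlN n⟩
            (by show (v : ℤ) < -l n; omega) (by show -l n ≤ (v : ℤ) + 2 * k; omega))).le
    obtain ⟨x, hx⟩ := h1
    refine ⟨x, lt_of_le_of_lt ?_ hC⟩
    exact_mod_cast hx

theorem line_const {k : ℕ} (hk : 1 ≤ k) {N : Set ℤ} (hN : IsNet line k N) :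
    roughConst line (netGraph line k N) = 1 := by
  apply le_antisymm
  · refine le_of_forall_gt_imp_ge_of_dense fun a ha => ?_
    induction a with
    | bot => simp at ha
    | top => exact le_top
    | coe a =>
      have ha' : 1 < a := by
        have h : ((1 : ℝ) : EReal) < (a : EReal) := ha
        exact EReal.coe_lt_coe_iff.1 h
      obtain ⟨b, hb⟩ := line_sub_one hk hN ha'
      exact iInf₂_le a ⟨by linarith, b, hb⟩
  · refine le_iInf₂ fun C hC => ?_
    obtain ⟨hC0, f, hf⟩ := hC
    have : (1 : ℝ) ≤ C := by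
      by_contra hlt
      push Not at hlt
      -- distances would be bounded
      have hb : ∀ n : ℕ, (1 - C ^ 2) * (n : ℝ) ≤ C ^ 3 + C := by
        intro n
        obtain ⟨h1, h2⟩ := hf.1 0 n
        have h3 : (line.dist 0 (n : ℤ) : ℝ) = n := by
          have h4 := line_dist 0 n
          rw [zero_sub, abs_neg, abs_of_nonneg (by positivity)] at h4
          exact_mod_cast h4
        rw [h3] at h1 h2
        have h5 : ((netGraph line k N).dist (f 0) (f n) : ℝ) ≤ C * n + C ^ 2 := by
          have h6 : C * (C⁻¹ * ((netGraph line k N).dist (f 0) (f n) : ℝ) - C) ≤ C * n :=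
            mul_le_mul_of_nonneg_left h1 hC0.le
          rw [mul_sub, ← mul_assoc, mul_inv_cancel₀ hC0.ne', one_mul] at h6
          nlinarith
        have h7 := mul_le_mul_of_nonneg_left h5 hC0.le
        nlinarith
      have h8 : 0 < 1 - C ^ 2 := by nlinarith
      obtain ⟨n, hn⟩ := exists_nat_gt ((C ^ 3 + C) / (1 - C ^ 2))
      rw [div_lt_iff₀ h8] at hn
      have := hb n
      linarith
    exact_mod_cast this

theorem line_sub : SubScaleInvariant line := by
  intro N hN
  refine tendsto_const_nhds.congr' ?_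
  filter_upwards [eventually_ge_atTop 1] with k hk
  exact (line_const hk (hN k hk)).symm

end Pool.Agent.Q185.ScaleInv
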