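import Pool.Agent.Q185.ScaleInv.Defs

/-!
MP_6f70ff_gt (helper185): a rough isometry to a net graph with constant less than `2` forces
volume doubling.
-/

open Filter Topology

namespace Pool.Agent.Q185.ScaleInv

variable {V : Type*} {G : SimpleGraph V}

/-- an intermediate point of a geodesic -/
theorem exists_between (hG : G.Connected) (u v : V) (a : ℕ) :
    ∃ p, G.dist u p ≤ a ∧ G.dist p v ≤ G.dist u v - a := by
  obtain ⟨w, hw⟩ := hG.exists_walk_length_eq_dist u v
  refine ⟨w.getVert a, ?_, ?_⟩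
  · refine (SimpleGraph.dist_le (w.take a)).trans ?_
    rw [SimpleGraph.Walk.take_length]
    exact min_le_left _ _
  · refine (SimpleGraph.dist_le (w.drop a)).trans ?_
    rw [SimpleGraph.Walk.drop_length, hw]

/-- natural balls -/
def B (G : SimpleGraph V) (v : V) (n : ℕ) : Set V := {w | G.dist v w ≤ n}

theorem B_finite (hG : G.Connected) (hf : ∀ v, (G.neighborSet v).Finite) (v : V) (n : ℕ) :
    (B G v n).Finite := by
  induction n with
  | zero =>
    refine (Set.finite_singleton v).subset fun w hw => ?_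
    have : G.dist v w = 0 := Nat.le_zero.1 hw
    exact (hG.dist_eq_zero_iff.1 this).symm
  | succ n ih =>
    refine ((ih.biUnion fun w _ => hf w).union ih).subset fun w hw => ?_
    by_cases h : G.dist v w ≤ n
    · exact Or.inr h
    · left
      obtain ⟨p, hp1, hp2⟩ := exists_between hG v w n
      have hw' : G.dist v w ≤ n + 1 := hw
      have hp3 : G.dist p w ≤ 1 := by omega
      have hp4 : G.dist p w ≠ 0 := by
        intro h0
        rw [hG.dist_eq_zero_iff] at h0
        subst h0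
        exact h hp1
      have hadj : G.Adj p w := SimpleGraph.dist_eq_one_iff_adj.1 (by omega)
      exact Set.mem_biUnion (x := p) hp1 hadj

theorem dist_iso (hG : G.Connected) (φ : G ≃g G) (u v : V) : G.dist (φ u) (φ v) = G.dist u v := by
  have h : ∀ (ψ : G ≃g G) (u v : V), G.dist (ψ u) (ψ v) ≤ G.dist u v := by
    intro ψ u v
    obtain ⟨w, hw⟩ := hG.exists_walk_length_eq_dist u v
    have := SimpleGraph.dist_le (w.map ψ.toHom)
    rw [SimpleGraph.Walk.length_map, hw] at this
    exact this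
  refine le_antisymm (h φ u v) ?_
  have := h φ.symm (φ u) (φ v)
  simpa using this

theorem B_card (hG : G.Connected) (hT : VertexTransitive G) (u v : V) (n : ℕ) :
    (B G u n).ncard = (B G v n).ncard := by
  obtain ⟨φ, rfl⟩ := hT u v
  have : B G (φ u) n = φ '' B G u n := by
    ext w
    constructor
    · intro hw
      refine ⟨φ.symm w, ?_, by simp⟩
      have hw' : G.dist (φ u) w ≤ n := hw
      show G.dist u (φ.symm w) ≤ n
      rw [← dist_iso hG φ]
      simpa using hw'
    · rintro ⟨w, hw, rfl⟩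
      show G.dist (φ u) (φ w) ≤ n
      rw [dist_iso hG φ]
      exact hw
  rw [this, Set.ncard_image_of_injective _ φ.injective]

section net

variable {k : ℕ} {N : Set V}

theorem net_sep (hN : IsNet G k N) {u v : V} (hu : u ∈ N) (hv : v ∈ N) (h : G.dist u v < k) :
    u = v := by
  by_contra hne
  exact absurd (hN.1 u hu v hv hne) (not_le.2 h)

theorem net_cover (_hG : G.Connected) (hk : 1 ≤ k) (hN : IsNet G k N) (v : V) :
    ∃ u ∈ N, G.dist u v < k := by
  by_contra hcon
  push Not at hcon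
  have hv : v ∉ N := by
    intro hv
    have := hcon v hv
    rw [SimpleGraph.dist_self] at this
    omega
  have h1 : ∀ u ∈ insert v N, ∀ w ∈ insert v N, u ≠ w → k ≤ G.dist u w := by
    intro u hu w hw hne
    rcases Set.mem_insert_iff.1 hu with hu | hu
    · rcases Set.mem_insert_iff.1 hw with hw | hw
      · exact absurd (hu.trans hw.symm) hne
      · rw [hu, G.dist_comm]; exact hcon w hw
    · rcases Set.mem_insert_iff.1 hw with hw | hw
      · rw [hw]; exact hcon u hu
      · exact hN.1 u hu w hw hne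
  exact hv (hN.2 h1 (Set.subset_insert v N) (Set.mem_insert v N))

/-- the net graph moves by at least two steps at a time -/
theorem net_walk (hG : G.Connected) (hk : 1 ≤ k) (hN : IsNet G k N) (u : N) (m : ℕ) :
    ∀ (p : V) (w : N), G.dist (u : V) p ≤ 2 * m → G.dist (w : V) p < k →
      ∃ q : (netGraph G k N).Walk u w, q.length ≤ m := by
  induction m with
  | zero =>
    intro p w hp hw
    have h0 : G.dist (u : V) p = 0 := by omega
    rw [hG.dist_eq_zero_iff] at h0
    subst h0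
    have : w = u := Subtype.ext (net_sep hN w.2 u.2 hw)
    subst this
    exact ⟨SimpleGraph.Walk.nil, le_rfl⟩
  | succ m ih =>
    intro p w hp hw
    obtain ⟨p', h1, h2⟩ := exists_between hG (u : V) p (2 * m)
    obtain ⟨w', hw'N, hw'⟩ := net_cover hG hk hN p'
    obtain ⟨q, hq⟩ := ih p' ⟨w', hw'N⟩ h1 hw'
    have h3 : G.dist w' (w : V) ≤ 2 * k := by
      have t1 := hG.dist_triangle (u := w') (v := p') (w := p)
      have t2 := hG.dist_triangle (u := w') (v := p) (w := (w : V))
      rw [G.dist_comm (u := p) (v := (w : V))] at t2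
      omega
    by_cases h4 : G.dist w' (w : V) = 0
    · rw [hG.dist_eq_zero_iff] at h4
      subst h4
      exact ⟨q, by omega⟩
    · have hadj : (netGraph G k N).Adj ⟨w', hw'N⟩ w := ⟨Nat.pos_of_ne_zero h4, h3⟩
      refine ⟨q.concat hadj, ?_⟩
      rw [SimpleGraph.Walk.length_concat]
      omega

theorem net_dist (hG : G.Connected) (hk : 1 ≤ k) (hN : IsNet G k N) (u v : N) :
    2 * (netGraph G k N).dist u v ≤ G.dist (u : V) v + 1 := by
  obtain ⟨q, hq⟩ := net_walk hG hk hN u ((G.dist (u : V) v + 1) / 2) v v (by omega)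
    (by rw [SimpleGraph.dist_self]; omega)
  have := SimpleGraph.dist_le q
  omega

theorem net_connected (hG : G.Connected) (hk : 1 ≤ k) (hN : IsNet G k N) :
    (netGraph G k N).Connected := by
  have : Nonempty N := by
    obtain ⟨v⟩ := hG.nonempty
    obtain ⟨u, hu, -⟩ := net_cover hG hk hN v
    exact ⟨⟨u, hu⟩⟩
  refine ⟨fun u v => ?_⟩
  obtain ⟨q, -⟩ := net_walk hG hk hN u ((G.dist (u : V) v + 1) / 2) v v (by omega)
    (by rw [SimpleGraph.dist_self]; omega)
  exact ⟨q⟩

theorem net_ball (hG : G.Connected) (hk : 1 ≤ k) (hN : IsNet G k N) {u v : N}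
    (h : (netGraph G k N).dist u v ≤ 1) : G.dist (u : V) v ≤ 2 * k := by
  rcases Nat.le_one_iff_eq_zero_or_eq_one.1 h with h | h
  · rw [(net_connected hG hk hN).dist_eq_zero_iff] at h
    subst h
    rw [SimpleGraph.dist_self]; omega
  · exact (SimpleGraph.dist_eq_one_iff_adj.1 h).2

end net

/-- the main estimate -/
theorem main_ineq (hG : G.Connected) (hf : ∀ v, (G.neighborSet v).Finite) (hT : VertexTransitive G)
    {k : ℕ} {N : Set V} (hk : 1 ≤ k) (hN : IsNet G k N) {C : ℝ} (hC : 0 < C) (hC2 : C < 2)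
    {f : V → N} (hfC : IsRoughIsometry G (netGraph G k N) C f) (x₀ : V) :
    ∃ (K : ℕ) (c : ℝ), 0 ≤ c ∧ ∀ (R r : ℕ), C / 2 * R + c ≤ r →
      (B G x₀ R).ncard ≤ K * (B G x₀ r).ncard := by
  classical
  have hfin := B_finite hG hf
  obtain ⟨u₀, hu₀, hu₀x⟩ := net_cover hG hk hN x₀
  choose g hg using hfC.2
  -- g u is a vertex whose image is at distance at most one from u
  have hg1 : ∀ u, (netGraph G k N).dist (f (g u)) u ≤ 1 := by
    intro u
    have h := (hg u).trans hC2
    have : (netGraph G k N).dist (f (g u)) u < 2 := by exact_mod_cast h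
    omega
  refine ⟨(B G x₀ k).ncard * (B G x₀ (2 * k)).ncard, C / 2 * (2 * k + 1) + 3 * C + G.dist x₀ (g ⟨u₀, hu₀⟩) + 1,
    by positivity, fun R r hr => ?_⟩
  -- net points near x₀
  set S : Set V := {u | u ∈ N ∧ G.dist x₀ u ≤ R + k} with hS
  have hSfin : S.Finite := (hfin x₀ (R + k)).subset fun u hu => hu.2
  have h1 : (B G x₀ R).ncard ≤ S.ncard * (B G x₀ k).ncard := by
    have hcov : B G x₀ R ⊆ ⋃ u ∈ hSfin.toFinset, B G u k := by
      intro v hv
      obtain ⟨u, hu, huv⟩ := net_cover hG hk hN v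
      refine Set.mem_biUnion (x := u) ?_ (show G.dist u v ≤ k from huv.le)
      rw [Finset.mem_coe, Set.Finite.mem_toFinset]
      refine ⟨hu, ?_⟩
      have t := hG.dist_triangle (u := x₀) (v := v) (w := u)
      rw [G.dist_comm (u := v) (v := u)] at t
      have hv' : G.dist x₀ v ≤ R := hv
      omega
    have hfinU : (⋃ u ∈ hSfin.toFinset, B G u k).Finite :=
      Set.Finite.biUnion (Finset.finite_toSet _) fun u _ => hfin u k
    refine (Set.ncard_le_ncard hcov hfinU).trans ?_
    have h2 : ∀ s : Finset V, (⋃ u ∈ s, B G u k).ncard ≤ s.card * (B G x₀ k).ncard := by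
      intro s
      induction s using Finset.induction_on with
      | empty => simp
      | insert a s ha ih =>
        rw [Finset.set_biUnion_insert, Finset.card_insert_of_notMem ha]
        refine (Set.ncard_union_le _ _).trans ?_
        rw [B_card hG hT a x₀ k]
        linarith [ih]
    refine (h2 _).trans ?_
    rw [Set.ncard_eq_toFinset_card _ hSfin]
  -- the map g on net points
  have h2 : S.ncard ≤ (B G x₀ r).ncard * (B G x₀ (2 * k)).ncard := by
    set g' : V → V := fun u => if h : u ∈ N then g ⟨u, h⟩ else u with hg'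
    have hmaps : ∀ u ∈ hSfin.toFinset, g' u ∈ (hfin x₀ r).toFinset := by
      intro u hu
      rw [Set.Finite.mem_toFinset] at hu ⊢
      obtain ⟨huN, huR⟩ := hu
      have e1 : g' u = g ⟨u, huN⟩ := by simp [hg', huN]
      rw [e1]
      show G.dist x₀ (g ⟨u, huN⟩) ≤ r
      have d1 := net_dist hG hk hN ⟨u₀, hu₀⟩ ⟨u, huN⟩
      have d2 : G.dist u₀ u ≤ R + 2 * k := by
        have t := hG.dist_triangle (u := u₀) (v := x₀) (w := u)
        omega
      have hc := net_connected hG hk hN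
      have d3 := hc.dist_triangle (u := f (g ⟨u₀, hu₀⟩)) (v := ⟨u₀, hu₀⟩) (w := f (g ⟨u, huN⟩))
      have d4 := hc.dist_triangle (u := ⟨u₀, hu₀⟩) (v := ⟨u, huN⟩) (w := f (g ⟨u, huN⟩))
      have d5 := hg1 ⟨u₀, hu₀⟩
      have d6 := hg1 ⟨u, huN⟩
      rw [SimpleGraph.dist_comm] at d6
      have d7 := (hfC.1 (g ⟨u₀, hu₀⟩) (g ⟨u, huN⟩)).2
      have d8 : 2 * (netGraph G k N).dist (f (g ⟨u₀, hu₀⟩)) (f (g ⟨u, huN⟩)) ≤ R + 2 * k + 1 + 4 := by
        simp only at d1
        omega
      have d8' : 2 * ((netGraph G k N).dist (f (g ⟨u₀, hu₀⟩)) (f (g ⟨u, huN⟩)) : ℝ) ≤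
          R + 2 * k + 1 + 4 := by exact_mod_cast d8
      have d9 := hG.dist_triangle (u := x₀) (v := g ⟨u₀, hu₀⟩) (w := g ⟨u, huN⟩)
      have d9' : (G.dist x₀ (g ⟨u, huN⟩) : ℝ) ≤ G.dist x₀ (g ⟨u₀, hu₀⟩) +
          G.dist (g ⟨u₀, hu₀⟩) (g ⟨u, huN⟩) := by exact_mod_cast d9
      have : (G.dist x₀ (g ⟨u, huN⟩) : ℝ) ≤ r := by
        refine le_trans ?_ hr
        have e2 : C * ((netGraph G k N).dist (f (g ⟨u₀, hu₀⟩)) (f (g ⟨u, huN⟩)) : ℝ) ≤
            C * ((R + 2 * k + 1 + 4) / 2) := by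
          apply mul_le_mul_of_nonneg_left _ hC.le
          linarith
        have e3 : C * (((R : ℝ) + 2 * k + 1 + 4) / 2) = C / 2 * R + C / 2 * (2 * k + 1) + 2 * C := by
          ring
        linarith
      exact_mod_cast this
    have hfib : ∀ x ∈ (hfin x₀ r).toFinset,
        (hSfin.toFinset.filter fun u => g' u = x).card ≤ (B G x₀ (2 * k)).ncard := by
      intro x _
      rw [← B_card hG hT (f x : V) x₀ (2 * k),
        Set.ncard_eq_toFinset_card _ (hfin (f x : V) (2 * k))]
      refine Finset.card_le_card fun u hu => ?_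
      rw [Finset.mem_filter, Set.Finite.mem_toFinset] at hu
      obtain ⟨⟨huN, -⟩, hux⟩ := hu
      have e1 : g' u = g ⟨u, huN⟩ := by simp [hg', huN]
      rw [e1] at hux
      rw [Set.Finite.mem_toFinset]
      have := hg1 ⟨u, huN⟩
      rw [hux] at this
      exact net_ball hG hk hN this
    have := Finset.card_le_mul_card_image_of_maps_to hmaps _ hfib
    rw [Set.ncard_eq_toFinset_card _ hSfin, Set.ncard_eq_toFinset_card _ (hfin x₀ r), mul_comm]
    exact this
  calc (B G x₀ R).ncard ≤ S.ncard * (B G x₀ k).ncard := h1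
    _ ≤ ((B G x₀ r).ncard * (B G x₀ (2 * k)).ncard) * (B G x₀ k).ncard :=
        Nat.mul_le_mul_right _ h2
    _ = _ := by ring

/-- the inequality for real radii -/
theorem real_ineq {b : ℝ → ℝ} (hmono : ∀ r s, 0 ≤ r → r ≤ s → b r ≤ b s) {K θ c : ℝ} (hK : 0 ≤ K)
    (hθ : 0 < θ) (hθ1 : θ < 1) (hc : 0 ≤ c) (h : ∀ R, 0 ≤ R → b R ≤ K * b (θ * R + c)) (m : ℕ) :
    ∀ R, 0 ≤ R → b R ≤ K ^ m * b (θ ^ m * R + c / (1 - θ)) := by
  have h1 : 0 < 1 - θ := by linarith
  have hc' : 0 ≤ c / (1 - θ) := by positivity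
  have key : ∀ m : ℕ, ∀ x, 0 ≤ x → b (x + c / (1 - θ)) ≤ K ^ m * b (θ ^ m * x + c / (1 - θ)) := by
    intro m
    induction m with
    | zero =>
      intro x hx
      simp
    | succ m ih =>
      intro x hx
      refine (h _ (by positivity)).trans ?_
      have e : θ * (x + c / (1 - θ)) + c = θ * x + c / (1 - θ) := by
        field_simp; ring
      rw [e]
      have h2 := ih (θ * x) (by positivity)
      calc K * b (θ * x + c / (1 - θ)) ≤ K * (K ^ m * b (θ ^ m * (θ * x) + c / (1 - θ))) :=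
            mul_le_mul_of_nonneg_left h2 hK
        _ = _ := by rw [← mul_assoc, ← mul_assoc (θ ^ m), pow_succ, pow_succ]; ring
  intro R hR
  exact (hmono _ _ hR (le_add_of_nonneg_right hc')).trans (key m R hR)

theorem ball_eq (G : SimpleGraph V) (v : V) {r : ℝ} (hr : 0 ≤ r) : ball G v r = B G v ⌊r⌋₊ := by
  ext w
  exact (Nat.le_floor_iff hr).symm

/-- A rough isometry to a net graph with constant less than `2` forces volume doubling. -/
theorem doubling (hG : G.Connected) (hf : ∀ v, (G.neighborSet v).Finite) (hT : VertexTransitive G)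
    {k : ℕ} {N : Set V} (hk : 1 ≤ k) (hN : IsNet G k N)
    (hC : roughConst G (netGraph G k N) < 2) : VolumeDoubling G := by
  unfold roughConst at hC
  rw [iInf_lt_iff] at hC
  obtain ⟨C, hC⟩ := hC
  rw [iInf_lt_iff] at hC
  obtain ⟨⟨hC0, f, hfC⟩, hC2⟩ := hC
  have hC2' : C < 2 := by
    have h : (C : EReal) < ((2 : ℝ) : EReal) := hC2
    exact EReal.coe_lt_coe_iff.1 h
  obtain ⟨x₀⟩ := hG.nonempty
  obtain ⟨K, c, hc, hmain⟩ := main_ineq hG hf hT hk hN hC0 hC2' hfC x₀
  set b : ℝ → ℝ := fun r => ((ball G x₀ r).ncard : ℝ) with hb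
  have hfin := B_finite hG hf
  have hfinb : ∀ v (r : ℝ), (ball G v r).Finite := by
    intro v r
    refine (hfin v ⌊max r 0⌋₊).subset fun w hw => ?_
    rw [← ball_eq G v (le_max_right r 0)]
    exact le_trans (show (G.dist v w : ℝ) ≤ r from hw) (le_max_left _ _)
  have hmono : ∀ r s, 0 ≤ r → r ≤ s → b r ≤ b s := by
    intro r s _ hrs
    refine Nat.cast_le.2 (Set.ncard_le_ncard (fun w hw => ?_) (hfinb _ _))
    exact le_trans (show (G.dist x₀ w : ℝ) ≤ r from hw) hrs
  have hpos : ∀ r, 0 ≤ r → 1 ≤ b r := by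
    intro r hr
    have : 0 < (ball G x₀ r).ncard := by
      rw [Set.ncard_pos (hfinb _ _)]
      refine ⟨x₀, ?_⟩
      show (G.dist x₀ x₀ : ℝ) ≤ r
      rw [SimpleGraph.dist_self]; simpa using hr
    show (1 : ℝ) ≤ ((ball G x₀ r).ncard : ℝ)
    exact_mod_cast this
  have hstep : ∀ R, 0 ≤ R → b R ≤ K * b (C / 2 * R + (c + 1)) := by
    intro R hR
    have h0 : 0 ≤ C / 2 * R + (c + 1) := by positivity
    have h1 : C / 2 * (⌊R⌋₊ : ℝ) + c ≤ (⌊C / 2 * R + (c + 1)⌋₊ : ℝ) := by
      have h2 : (⌊R⌋₊ : ℝ) ≤ R := Nat.floor_le hR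
      have h3 : C / 2 * R + (c + 1) < ⌊C / 2 * R + (c + 1)⌋₊ + 1 := Nat.lt_floor_add_one _
      have h4 : C / 2 * (⌊R⌋₊ : ℝ) ≤ C / 2 * R := mul_le_mul_of_nonneg_left h2 (by positivity)
      linarith
    have h2 := hmain ⌊R⌋₊ ⌊C / 2 * R + (c + 1)⌋₊ h1
    rw [← ball_eq G x₀ hR, ← ball_eq G x₀ h0] at h2
    have : ((ball G x₀ R).ncard : ℝ) ≤ ((K * (ball G x₀ (C / 2 * R + (c + 1))).ncard : ℕ) : ℝ) :=
      Nat.cast_le.2 h2
    push_cast at this
    exact this
  have hθ : 0 < C / 2 := by positivity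
  have hθ1 : C / 2 < 1 := by linarith
  obtain ⟨m, hm⟩ := exists_pow_lt_of_lt_one (show (0 : ℝ) < 1 / 4 by norm_num) hθ1
  set c' := (c + 1) / (1 - C / 2) with hc'
  have hc'0 : 0 ≤ c' := by
    have : 0 < 1 - C / 2 := by linarith
    positivity
  refine ⟨K ^ m + b (2 * (2 * c')), ?_, fun v r hr => ?_⟩
  · have := hpos (2 * (2 * c')) (by positivity)
    positivity
  have hv : ∀ s : ℝ, 0 ≤ s → ((ball G v s).ncard : ℝ) = b s := by
    intro s hs
    simp only [hb]
    rw [ball_eq G v hs, ball_eq G x₀ hs, B_card hG hT v x₀]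
  rw [hv _ (by positivity), hv _ hr.le]
  have hb1 := hpos r hr.le
  by_cases hrc : 2 * c' ≤ r
  · have h1 := real_ineq hmono (Nat.cast_nonneg K) hθ hθ1 (by positivity) hstep m (2 * r)
      (by positivity)
    have h2 : b ((C / 2) ^ m * (2 * r) + c') ≤ b r := by
      refine hmono _ _ (by positivity) ?_
      have : (C / 2) ^ m * (2 * r) ≤ 1 / 4 * (2 * r) := mul_le_mul_of_nonneg_right hm.le (by positivity)
      linarith
    have h3 : (0 : ℝ) ≤ K ^ m := by positivity
    have h4 := hpos (2 * (2 * c')) (by positivity)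
    calc b (2 * r) ≤ K ^ m * b ((C / 2) ^ m * (2 * r) + c') := h1
      _ ≤ K ^ m * b r := mul_le_mul_of_nonneg_left h2 h3
      _ ≤ (K ^ m + b (2 * (2 * c'))) * b r := by nlinarith
  · push Not at hrc
    have h1 : b (2 * r) ≤ b (2 * (2 * c')) := hmono _ _ (by positivity) (by linarith)
    have h3 : (0 : ℝ) ≤ K ^ m := by positivity
    have h4 := hpos (2 * (2 * c')) (by positivity)
    nlinarith

theorem exists_net (G : SimpleGraph V) (k : ℕ) : ∃ N : Set V, IsNet G k N := by
  obtain ⟨N, hN⟩ := zorn_subset {N : Set V | ∀ u ∈ N, ∀ v ∈ N, u ≠ v → k ≤ G.dist u v} (by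
    intro c hc hchain
    refine ⟨⋃₀ c, ?_, fun s hs => Set.subset_sUnion_of_mem hs⟩
    rintro u ⟨s, hs, hus⟩ v ⟨t, ht, hvt⟩ hne
    rcases hchain.total hs ht with h | h
    · exact hc ht u (h hus) v hvt hne
    · exact hc hs u hus v (h hvt) hne)
  exact ⟨N, hN⟩

theorem doubling_of_sub (hG : G.Connected) (hf : ∀ v, (G.neighborSet v).Finite)
    (hT : VertexTransitive G) (hS : SubScaleInvariant G) : VolumeDoubling G := by
  choose N hN using fun k : ℕ => exists_net G k
  have h1 := hS N (fun k _ => hN k)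
  have h2 : ∀ᶠ k in atTop, roughConst G (netGraph G k (N k)) < 2 :=
    h1.eventually (gt_mem_nhds (by exact_mod_cast (by norm_num : (1 : ℝ) < 2)))
  obtain ⟨k, hk, hk1⟩ := (h2.and (eventually_ge_atTop 1)).exists
  exact doubling hG hf hT hk1 (hN k) hk

end Pool.Agent.Q185.ScaleInv
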